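import Mathlib
import Pool.Agent.Q49.TL.Alg

/-!
Linear substitutions in weighted homogeneous polynomials over an algebra, and coordinates.
-/

set_option autoImplicit false

namespace Pool.Agent.Run7.h652.LP

open MvPolynomial

section

variable {K A ι : Type} [Field K] [CommRing A] [Algebra K A] {S : ι → Type}
  [∀ i, Fintype (S i)]

/-- the substitution `x i = ∑ s, v i s * Y (i, s)` -/
noncomputable def sub (v : ∀ i, S i → A) (f : MvPolynomial ι A) : MvPolynomial (Σ i, S i) A :=
  aeval (fun i => ∑ s, C (v i s) * X (⟨i, s⟩ : Σ i, S i)) f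

theorem eval_sub (v : ∀ i, S i → A) (f : MvPolynomial ι A) (y : (Σ i, S i) → A) :
    eval y (sub v f) = eval (fun i => ∑ s, v i s * y ⟨i, s⟩) f := by
  unfold sub
  have h1 : (eval y).comp (aeval (R := A)
      (fun i => ∑ s, C (v i s) * X (⟨i, s⟩ : Σ i, S i))).toRingHom
      = eval (fun i => ∑ s, v i s * y ⟨i, s⟩) := by
    apply MvPolynomial.ringHom_ext
    · intro a
      simp
    · intro i
      simp
  exact RingHom.congr_fun h1 f

theorem sub_wh {w : ι → ℕ} {e : ℕ} {f : MvPolynomial ι A} (hf : IsWeightedHomogeneous w f e)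
    (v : ∀ i, S i → A) :
    IsWeightedHomogeneous (fun is : Σ i, S i => w is.1) (sub v f) e := by
  classical
  unfold sub
  rw [f.as_sum, map_sum]
  refine IsWeightedHomogeneous.sum _ _ _ fun m hm => ?_
  rw [aeval_monomial]
  have h1 : Finsupp.weight w m = e := hf (mem_support_iff.1 hm)
  have h2 : IsWeightedHomogeneous (fun is : Σ i, S i => w is.1)
      (m.prod fun i k => (∑ s, C (v i s) * X (⟨i, s⟩ : Σ i, S i)) ^ k) (Finsupp.weight w m) := by
    rw [Finsupp.weight_apply]
    unfold Finsupp.prod Finsupp.sum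
    refine IsWeightedHomogeneous.prod _ _ _ fun i _ => ?_
    have h3 : IsWeightedHomogeneous (fun is : Σ i, S i => w is.1)
        (∑ s, C (v i s) * X (⟨i, s⟩ : Σ i, S i)) (w i) := by
      refine IsWeightedHomogeneous.sum _ _ _ fun s _ => ?_
      have h4 := (isWeightedHomogeneous_C (fun is : Σ i, S i => w is.1) (v i s)).mul
        (isWeightedHomogeneous_X A (fun is : Σ i, S i => w is.1) (⟨i, s⟩ : Σ i, S i))
      rwa [zero_add] at h4
    exact h3.pow _
  rw [← h1]
  have h5 := (isWeightedHomogeneous_C (fun is : Σ i, S i => w is.1)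
    (algebraMap A A (coeff m f))).mul h2
  rw [zero_add] at h5
  exact h5

/-- the coordinate of a polynomial with respect to a linear functional -/
noncomputable def crd {τ : Type} (L : A →ₗ[K] K) (g : MvPolynomial τ A) : MvPolynomial τ K :=
  ∑ m ∈ g.support, monomial m (L (coeff m g))

theorem crd_wh {τ : Type} {w : τ → ℕ} {e : ℕ} {g : MvPolynomial τ A}
    (hg : IsWeightedHomogeneous w g e) (L : A →ₗ[K] K) :
    IsWeightedHomogeneous w (crd L g) e := by
  refine IsWeightedHomogeneous.sum _ _ _ fun m hm => ?_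
  exact isWeightedHomogeneous_monomial _ _ _ (hg (mem_support_iff.1 hm))

theorem eval_crd {τ : Type} (L : A →ₗ[K] K) (g : MvPolynomial τ A) (y : τ → K) :
    eval y (crd L g) = L (eval (fun i => algebraMap K A (y i)) g) := by
  unfold crd
  have hR := eval_eq (fun i => algebraMap K A (y i)) g
  rw [map_sum, hR, map_sum]
  refine Finset.sum_congr rfl fun m _ => ?_
  rw [eval_monomial]
  have : (∏ i ∈ m.support, (algebraMap K A (y i)) ^ m i)
      = algebraMap K A (m.prod fun i k => y i ^ k) := by
    rw [map_finsuppProd]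
    simp [Finsupp.prod]
  rw [this, mul_comm (coeff m g), ← Algebra.smul_def, map_smul, smul_eq_mul, mul_comm]

/-- Evaluation of the coordinates after the substitution. -/
theorem eval_crd_sub (L : A →ₗ[K] K) (v : ∀ i, S i → A) (f : MvPolynomial ι A)
    (y : (Σ i, S i) → K) :
    eval y (crd L (sub v f)) = L (eval (fun i => ∑ s, y ⟨i, s⟩ • v i s) f) := by
  rw [eval_crd, eval_sub]
  have h : (fun i => ∑ s, v i s * algebraMap K A (y ⟨i, s⟩)) =
      fun i => ∑ s, y ⟨i, s⟩ • v i s := by
    funext i
    refine Finset.sum_congr rfl fun s _ => ?_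
    rw [Algebra.smul_def, mul_comm]
  rw [h]

end

end Pool.Agent.Run7.h652.LP
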