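import Mathlib
import Pool.Agent.Run7.h652.LP.Sub

/-!
The weighted Tsen property and algebraic extensions.
-/

set_option autoImplicit false

namespace Pool.Agent.Run7.h652.LP

open MvPolynomial Module
open Pool.Agent.Q49.TL (Tsen)

theorem tsen_alg {φ : ℕ → ℕ} (K K' : Type) [Field K] [Field K'] [Algebra K K']
    [Algebra.IsAlgebraic K K'] (h : Tsen φ K) : Tsen φ K' := by
  classical
  intro ι κ _ _ w e f hw he hf hlt
  -- a finite subextension with the coefficients
  let T : Finset K' := Finset.univ.biUnion fun j : κ => (f j).support.image fun m => (f j).coeff m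
  let E : IntermediateField K K' := IntermediateField.adjoin K (T : Set K')
  have hfin : FiniteDimensional K E := by
    refine IntermediateField.finiteDimensional_adjoin fun x _ => ?_
    exact (Algebra.IsAlgebraic.isAlgebraic x).isIntegral
  have hcoe : ∀ j m, (f j).coeff m ∈ E := by
    intro j m
    by_cases hm : m ∈ (f j).support
    · exact IntermediateField.subset_adjoin K _ (Finset.mem_coe.2 (Finset.mem_biUnion.2
        ⟨j, Finset.mem_univ _, Finset.mem_image.2 ⟨m, hm, rfl⟩⟩))
    · rw [notMem_support_iff.1 hm]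
      exact E.zero_mem
  let m := finrank K E
  let b : Basis (Fin m) K E := finBasis K E
  have hm : 0 < m := finrank_pos
  -- functionals
  obtain ⟨P, hP⟩ := LinearMap.exists_leftInverse_of_injective
    (E.toSubalgebra.toSubmodule.subtype) (Submodule.ker_subtype _)
  let b' : Basis (Fin m) K E.toSubalgebra.toSubmodule := b
  let L : Fin m → (K' →ₗ[K] K) := fun r => (b'.coord r) ∘ₗ P
  have hL : ∀ x : K', x ∈ E → (∀ r, L r x = 0) → x = 0 := by
    intro x hx hr
    have h1 : P x = (⟨x, hx⟩ : E.toSubalgebra.toSubmodule) :=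
      LinearMap.congr_fun hP (⟨x, hx⟩ : E.toSubalgebra.toSubmodule)
    have h2 : P x = 0 := b'.ext_elem fun r => by
      have := hr r
      simpa [L] using this
    rw [h1] at h2
    exact congr_arg Subtype.val h2
  let g : κ × Fin m → MvPolynomial (Σ _ : ι, Fin m) K := fun jr =>
    crd (L jr.2) (sub (fun _ s => (b s : K')) (f jr.1))
  obtain ⟨y, hy, hyg⟩ := h (Σ _ : ι, Fin m) (κ × Fin m) (fun is => w is.1) (fun jr => e jr.1) g
    (fun is => hw is.1) (fun jr => he jr.1)
    (fun jr => crd_wh (sub_wh (hf jr.1) _) _) (by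
      rw [Fintype.sum_prod_type, Fintype.sum_sigma]
      simp only [Finset.sum_const, Finset.card_univ, Fintype.card_fin, smul_eq_mul]
      rw [← Finset.mul_sum, ← Finset.mul_sum]
      exact Nat.mul_lt_mul_of_pos_left hlt hm)
  refine ⟨fun i => ∑ s, y ⟨i, s⟩ • (b s : K'), ?_, fun j => ?_⟩
  · intro hx
    apply hy
    funext ⟨i, s⟩
    have h1 : ∑ s, y ⟨i, s⟩ • b s = 0 := by
      apply Subtype.ext
      have h2 := congr_fun hx i
      have h3 : ((∑ s, y ⟨i, s⟩ • b s : E) : K') = ∑ s, y ⟨i, s⟩ • (b s : K') := by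
        rw [IntermediateField.coe_sum]
        rfl
      rw [h3]
      exact h2
    exact Fintype.linearIndependent_iff.1 b.linearIndependent _ h1 s
  · apply hL
    · rw [eval_eq]
      refine sum_mem fun d _ => mul_mem (hcoe j d) (prod_mem fun i _ => pow_mem ?_ _)
      exact sum_mem fun s _ => E.smul_mem (b s).2
    · intro r
      have h1 := hyg (j, r)
      rw [eval_crd_sub] at h1
      exact h1

end Pool.Agent.Run7.h652.LP
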