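import Mathlib
import Pool.Agent.Run7.h652.LP.Sub

/-!
The weighted Tsen property of a rational function field in one variable.
-/

set_option autoImplicit false

namespace Pool.Agent.Run7.h652.LP

open MvPolynomial Module
open Pool.Agent.Q49.TL (Tsen)

/-- Clearing denominators. -/
theorem clear_den {K ι κ : Type} [Field K] [Fintype κ] (w : ι → ℕ) (e : κ → ℕ)
    (f : κ → MvPolynomial ι (RatFunc K)) (hf : ∀ j, IsWeightedHomogeneous w (f j) (e j)) :
    ∃ (F : κ → MvPolynomial ι (Polynomial K)) (D : Polynomial K), D ≠ 0 ∧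
      (∀ j, IsWeightedHomogeneous w (F j) (e j)) ∧
      ∀ (j : κ) (x : ι → Polynomial K),
        algebraMap (Polynomial K) (RatFunc K) (eval x (F j)) =
          algebraMap (Polynomial K) (RatFunc K) D *
            eval (fun i => algebraMap (Polynomial K) (RatFunc K) (x i)) (f j) := by
  classical
  let T : Finset (RatFunc K) :=
    Finset.univ.biUnion fun j : κ => (f j).support.image fun m => (f j).coeff m
  obtain ⟨D, hD⟩ := IsLocalization.exist_integer_multiples_of_finset
    (nonZeroDivisors (Polynomial K)) T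
  have h1 : ∀ j m, ∃ P : Polynomial K, algebraMap (Polynomial K) (RatFunc K) P =
      algebraMap (Polynomial K) (RatFunc K) D * (f j).coeff m := by
    intro j m
    by_cases hm : m ∈ (f j).support
    · obtain ⟨P, hP⟩ := hD ((f j).coeff m) (Finset.mem_biUnion.2
        ⟨j, Finset.mem_univ _, Finset.mem_image.2 ⟨m, hm, rfl⟩⟩)
      refine ⟨P, hP.trans ?_⟩
      rw [Algebra.smul_def]
    · exact ⟨0, by rw [notMem_support_iff.1 hm, map_zero, mul_zero]⟩
  choose P hP using h1
  refine ⟨fun j => ∑ m ∈ (f j).support, monomial m (P j m), D,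
    nonZeroDivisors.ne_zero D.2, fun j => ?_, fun j x => ?_⟩
  · refine IsWeightedHomogeneous.sum _ _ _ fun m hm => ?_
    exact isWeightedHomogeneous_monomial _ _ _ (hf j (mem_support_iff.1 hm))
  · rw [map_sum, map_sum]
    have hR := eval_eq (fun i => algebraMap (Polynomial K) (RatFunc K) (x i)) (f j)
    rw [hR, Finset.mul_sum]
    refine Finset.sum_congr rfl fun m _ => ?_
    rw [eval_monomial, map_mul, hP, mul_assoc]
    congr 2
    rw [map_finsuppProd]
    simp [Finsupp.prod]

theorem natDegree_eval_le {K ι : Type} [Field K] {w : ι → ℕ} {e N : ℕ}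
    {F : MvPolynomial ι (Polynomial K)} (hF : IsWeightedHomogeneous w F e)
    {x : ι → Polynomial K} (hx : ∀ i, (x i).natDegree ≤ w i * N) {c : ℕ}
    (hc : ∀ m ∈ F.support, (F.coeff m).natDegree ≤ c) :
    (eval x F).natDegree ≤ e * N + c := by
  rw [eval_eq]
  refine Polynomial.natDegree_sum_le_of_forall_le _ _ fun m hm => ?_
  refine Polynomial.natDegree_mul_le.trans ?_
  rw [add_comm (e * N)]
  refine add_le_add (hc m hm) ?_
  refine (Polynomial.natDegree_prod_le _ _).trans ?_
  have h1 : Finsupp.weight w m = e := hF (mem_support_iff.1 hm)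
  rw [← h1, Finsupp.weight_apply, Finsupp.sum, Finset.sum_mul]
  refine Finset.sum_le_sum fun i _ => ?_
  refine Polynomial.natDegree_pow_le.trans ?_
  rw [smul_eq_mul, mul_assoc]
  exact Nat.mul_le_mul_left _ (hx i)

theorem tsen_tr {φ : ℕ → ℕ} (K : Type) [Field K] (h : Tsen φ K) :
    Tsen (fun d => d * φ d) (RatFunc K) := by
  classical
  intro ι κ _ _ w e f hw he hf hlt
  obtain ⟨F, D, hD, hF, hFf⟩ := clear_den w e f hf
  obtain ⟨c, hc⟩ : ∃ c : ℕ, ∀ j, ∀ m ∈ (F j).support, ((F j).coeff m).natDegree ≤ c := by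
    refine ⟨Finset.univ.sup fun j => (F j).support.sup fun m => ((F j).coeff m).natDegree,
      fun j m hm => ?_⟩
    refine le_trans ?_ (Finset.le_sup (f := fun j => (F j).support.sup
      fun m => ((F j).coeff m).natDegree) (Finset.mem_univ j))
    exact Finset.le_sup (f := fun m => ((F j).coeff m).natDegree) hm
  let N : ℕ := ∑ j, (c + 1) * φ (e j)
  let v : ∀ i : ι, Fin (w i * N + 1) → Polynomial K := fun i s => Polynomial.X ^ (s : ℕ)
  let g : (Σ j : κ, Fin (e j * N + c + 1)) → MvPolynomial (Σ i : ι, Fin (w i * N + 1)) K :=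
    fun jr => crd (Polynomial.lcoeff K (jr.2 : ℕ)) (sub v (F jr.1))
  obtain ⟨y, hy, hyg⟩ := h (Σ i : ι, Fin (w i * N + 1)) (Σ j : κ, Fin (e j * N + c + 1))
    (fun is => w is.1) (fun jr => e jr.1) g (fun is => hw is.1) (fun jr => he jr.1)
    (fun jr => crd_wh (sub_wh (hF jr.1) _) _) (by
      rw [Fintype.sum_sigma, Fintype.sum_sigma]
      simp only [Finset.sum_const, Finset.card_univ, Fintype.card_fin, smul_eq_mul]
      have h1 : ∑ j, (e j * N + c + 1) * φ (e j) = (∑ j, e j * φ (e j)) * N + N := by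
        have h2 : (∑ j, e j * φ (e j)) * N + N
            = (∑ j, e j * φ (e j)) * N + ∑ j, (c + 1) * φ (e j) := rfl
        rw [h2, Finset.sum_mul, ← Finset.sum_add_distrib]
        exact Finset.sum_congr rfl fun j _ => by ring
      have h2 : ∑ i, (w i * N + 1) * φ (w i) = (∑ i, w i * φ (w i)) * N + ∑ i, φ (w i) := by
        rw [Finset.sum_mul, ← Finset.sum_add_distrib]
        exact Finset.sum_congr rfl fun j _ => by ring
      have h3 : 0 < ∑ i, φ (w i) := by
        by_contra h0
        have h4 : ∀ i, φ (w i) = 0 := by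
          intro i
          exact (Finset.sum_eq_zero_iff.1 (Nat.eq_zero_of_not_pos h0)) i (Finset.mem_univ i)
        have h5 : ∑ i, w i * φ (w i) = 0 := Finset.sum_eq_zero fun i _ => by rw [h4, mul_zero]
        rw [h5] at hlt
        exact absurd hlt (Nat.not_lt_zero _)
      rw [h1, h2]
      have h4 : (∑ j, e j * φ (e j)) + 1 ≤ ∑ i, w i * φ (w i) := hlt
      calc (∑ j, e j * φ (e j)) * N + N = ((∑ j, e j * φ (e j)) + 1) * N := by ring
        _ ≤ (∑ i, w i * φ (w i)) * N := Nat.mul_le_mul_right _ h4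
        _ < _ := Nat.lt_add_of_pos_right h3)
  let x : ι → Polynomial K := fun i => ∑ s, y ⟨i, s⟩ • v i s
  have hxd : ∀ i, (x i).natDegree ≤ w i * N := by
    intro i
    refine Polynomial.natDegree_sum_le_of_forall_le _ _ fun s _ => ?_
    refine (Polynomial.natDegree_smul_le _ _).trans ?_
    rw [Polynomial.natDegree_X_pow]
    exact Nat.lt_succ_iff.1 s.2
  have hxF : ∀ j, eval x (F j) = 0 := by
    intro j
    have hd := natDegree_eval_le (hF j) hxd (hc j)
    ext r
    rw [Polynomial.coeff_zero]
    by_cases hr : r < e j * N + c + 1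
    · have h1 := hyg ⟨j, ⟨r, hr⟩⟩
      rw [eval_crd_sub] at h1
      exact h1
    · exact Polynomial.coeff_eq_zero_of_natDegree_lt (by omega)
  refine ⟨fun i => algebraMap (Polynomial K) (RatFunc K) (x i), ?_, fun j => ?_⟩
  · intro h0
    apply hy
    funext ⟨i, s⟩
    have h1 : x i = 0 := by
      have := congr_fun h0 i
      exact (IsFractionRing.injective (Polynomial K) (RatFunc K)) (by
        rw [map_zero]; exact this)
    have h2 : (x i).coeff (s : ℕ) = y ⟨i, s⟩ := by
      simp only [x, v, Polynomial.finsetSum_coeff, Polynomial.coeff_smul, Polynomial.coeff_X_pow,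
        smul_eq_mul, mul_ite, mul_one, mul_zero]
      rw [Finset.sum_eq_single s]
      · simp
      · intro t _ ht
        rw [if_neg]
        intro h'
        exact ht (Fin.ext h'.symm)
      · simp
    rw [h1] at h2
    simpa using h2.symm
  · have h1 := hFf j x
    rw [hxF, map_zero] at h1
    have h2 : algebraMap (Polynomial K) (RatFunc K) D ≠ 0 := fun h' =>
      hD ((IsFractionRing.injective (Polynomial K) (RatFunc K)) (by rw [h', map_zero]))
    exact (mul_eq_zero.1 h1.symm).resolve_left h2

end Pool.Agent.Run7.h652.LP
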