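import Mathlib
import Pool.Agent.Run7.h652.LP.Alg
import Pool.Agent.Run7.h652.LP.Tr
import Pool.Agent.Run7.h652.TL.Roots
import Pool.Agent.R614.PT.Max
import Pool.Agent.Q49.TL.Tk
import Pool.Agent.Q177.TL.Line

/-!
The theorem of Tsen and Lang at a prime number `ℓ`.
-/

set_option autoImplicit false

namespace Pool.Agent.Run7.h652.LP

open Module Polynomial
open Pool.Agent.Q49.TL (Tsen)
open Pool.Agent.R614.PT (PrimeTo exists_max exists_root)

/-- all the finite extensions have a degree divisible by `ℓ`, in terms of polynomials -/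
def LC (ℓ : ℕ) (M : Type) [Field M] : Prop :=
  ∀ g : M[X], Irreducible g → g.natDegree ≠ 1 → ℓ ∣ g.natDegree

theorem lc_root {ℓ : ℕ} {M : Type} [Field M] (h : LC ℓ M) (f : M[X]) (hf : ¬ ℓ ∣ f.natDegree) :
    ∃ y : M, f.IsRoot y := by
  obtain ⟨g, hg, hgf, hgl⟩ := Run7.h652.TL.exists_irreducible_factor f.natDegree f le_rfl hf
  have h1 : g.natDegree = 1 := by
    by_contra h2
    exact hgl (h g hg h2)
  obtain ⟨y, hy⟩ := exists_root_of_degree_eq_one (degree_eq_iff_natDegree_eq_of_pos one_pos |>.2 h1)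
  exact ⟨y, hy.dvd hgf⟩

/-- A relatively algebraically closed subfield. -/
theorem lc_sub {ℓ : ℕ} {N M : Type} [Field N] [Field M] [Algebra N M]
    (hN : ∀ z : M, IsAlgebraic N z → z ∈ (algebraMap N M).range) (hM : LC ℓ M) : LC ℓ N := by
  intro g hg hg1
  by_contra hgl
  obtain ⟨z, hz⟩ := lc_root hM (g.map (algebraMap N M)) (by rwa [natDegree_map])
  have hza : aeval z g = 0 := by
    rw [IsRoot.def, eval_map_algebraMap] at hz
    exact hz
  obtain ⟨y, hy⟩ := hN z ⟨g, hg.ne_zero, hza⟩
  have h1 : g.IsRoot y := by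
    have h2 : algebraMap N M (g.eval y) = 0 := by
      rw [← hza, ← hy, aeval_algebraMap_apply_eq_algebraMap_eval]
    exact (map_eq_zero _).1 h2
  obtain ⟨q, hq⟩ := dvd_iff_isRoot.2 h1
  have h2 : IsUnit q := by
    rcases hg.isUnit_or_isUnit hq with h | h
    · exact absurd h (not_isUnit_X_sub_C y)
    · exact h
  apply hg1
  rw [hq, natDegree_mul (X_sub_C_ne_zero y) h2.ne_zero, natDegree_X_sub_C,
    natDegree_eq_zero_of_isUnit h2]

/-- The maximal extension of degree prime to `ℓ`. -/
theorem exists_closure (k : Type) [Field k] {ℓ : ℕ} (hℓ : ℓ.Prime) :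
    ∃ M : IntermediateField k (AlgebraicClosure k), PrimeTo ℓ M ∧ LC ℓ M := by
  obtain ⟨M, hM, hM2⟩ := exists_max (C := k) (Ω := AlgebraicClosure k) hℓ
  refine ⟨M, hM, fun g hg hg1 => ?_⟩
  by_contra hgl
  obtain ⟨y, hy⟩ := exists_root hM2 g hgl
  obtain ⟨q, hq⟩ := dvd_iff_isRoot.2 hy
  have h2 : IsUnit q := by
    rcases hg.isUnit_or_isUnit hq with h | h
    · exact absurd h (not_isUnit_X_sub_C y)
    · exact h
  apply hg1
  rw [hq, natDegree_mul (X_sub_C_ne_zero y) h2.ne_zero, natDegree_X_sub_C,
    natDegree_eq_zero_of_isUnit h2]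

/-- A field which is algebraic over `N(t)`. -/
theorem tsen_step {φ : ℕ → ℕ} {N M : Type} [Field N] [Field M] [Algebra N M] {t : M}
    (ht : Transcendental N t) (hM : ∀ z : M, IsAlgebraic (IntermediateField.adjoin N {t}) z)
    (h : Tsen φ N) : Tsen (fun d => d * φ d) M := by
  have hinj : Function.Injective (aeval t : N[X] →ₐ[N] M) := by
    rwa [← transcendental_iff_injective]
  letI a : Algebra (RatFunc N) M :=
    (IsFractionRing.lift (K := RatFunc N) (g := (aeval t : N[X] →ₐ[N] M).toRingHom) hinj).toAlgebra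
  have ha : ∀ p : N[X], algebraMap (RatFunc N) M (algebraMap N[X] (RatFunc N) p) = aeval t p :=
    fun p => IsFractionRing.lift_algebraMap hinj p
  have htow : IsScalarTower N (RatFunc N) M := by
    refine IsScalarTower.of_algebraMap_eq fun x => ?_
    have h1 := ha (C x)
    rw [aeval_C] at h1
    rw [← h1]
    congr 1
  have halg : Algebra.IsAlgebraic (RatFunc N) M := by
    refine ⟨fun z => ?_⟩
    let R : IntermediateField N M :=
      (IsScalarTower.toAlgHom N (RatFunc N) M).fieldRange
    have htR : IntermediateField.adjoin N {t} ≤ R := by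
      rw [IntermediateField.adjoin_le_iff]
      rintro _ rfl
      refine ⟨algebraMap N[X] (RatFunc N) X, ?_⟩
      have h1 := ha X
      rw [aeval_X] at h1
      exact h1
    obtain ⟨P, hP0, hP⟩ := hM z
    let i1 : IntermediateField.adjoin N {t} →+* R := (IntermediateField.inclusion htR).toRingHom
    let i2 : R ≃+* RatFunc N := ((IsScalarTower.toAlgHom N (RatFunc N) M).rangeRestrict
      |> fun f => (AlgEquiv.ofInjective (IsScalarTower.toAlgHom N (RatFunc N) M)
        (algebraMap (RatFunc N) M).injective).symm.toRingEquiv)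
    refine ⟨P.map ((i2 : R →+* RatFunc N).comp i1), ?_, ?_⟩
    · rwa [Ne, Polynomial.map_eq_zero]
    · rw [aeval_def, eval₂_map]
      have h2 : (algebraMap (RatFunc N) M).comp ((i2 : R →+* RatFunc N).comp i1)
          = algebraMap (IntermediateField.adjoin N {t}) M := by
        ext x
        have h3 : algebraMap (RatFunc N) M (i2 (i1 x)) = (i1 x : M) := by
          have h4 := (AlgEquiv.ofInjective (IsScalarTower.toAlgHom N (RatFunc N) M)
            (algebraMap (RatFunc N) M).injective).apply_symm_apply (i1 x)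
          exact congr_arg Subtype.val h4
        exact h3
      rw [h2]
      exact hP
  exact tsen_alg (RatFunc N) M (tsen_tr N h)

end Pool.Agent.Run7.h652.LP
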