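import Mathlib
import Pool.Agent.Run7.h652.LP.Closed

/-!
The theorem of Tsen and Lang at a prime number `ℓ` for global function fields.
-/

set_option autoImplicit false

namespace Pool.Agent.Run7.h652.LP

open Module Polynomial
open Pool.Agent.Q49.TL (Tsen)
open Pool.Agent.R614.PT (PrimeTo)

/-- algebraic extensions of finite fields -/
theorem tsen_zero {ℓ : ℕ} (hℓ : ℓ.Prime) (F N : Type) [Field F] [Finite F] [Field N] [Algebra F N]
    [Algebra.IsAlgebraic F N] (hN : LC ℓ N) : Tsen (fun d => ℓ ^ d.factorization ℓ) N := by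
  obtain ⟨p, hp⟩ := CharP.exists F
  have hpp : p.Prime := by
    rcases CharP.char_is_prime_or_zero F p with h | h
    · exact h
    · subst h
      have := CharP.charP_to_charZero F
      exact absurd ‹Finite F› (not_finite_iff_infinite.2 inferInstance)
  have : Fact p.Prime := ⟨hpp⟩
  have : Fact ℓ.Prime := ⟨hℓ⟩
  let a : Algebra (ZMod p) F := ZMod.algebra F p
  have hN' : CharP N p := charP_of_injective_algebraMap (algebraMap F N).injective p
  let b : Algebra (ZMod p) N := ZMod.algebra N p
  have htow : IsScalarTower (ZMod p) F N :=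
    IsScalarTower.of_algebraMap_eq fun x => by
      have h1 : algebraMap (ZMod p) N = (algebraMap F N).comp (algebraMap (ZMod p) F) :=
        Subsingleton.elim _ _
      rw [h1]
      rfl
  have h1 : Algebra.IsAlgebraic (ZMod p) F := Algebra.IsAlgebraic.of_finite (ZMod p) F
  have h2 : Algebra.IsAlgebraic (ZMod p) N := Algebra.IsAlgebraic.trans (ZMod p) F N
  exact Pool.Agent.Q49.TL.s_TK Pool.Agent.Q177.TL.Line.line p ℓ N h2 hN

/-- An `ℓ`-closed field which is algebraic over `F(t)`. -/
theorem tsen_one {ℓ : ℕ} (hℓ : ℓ.Prime) {F K M : Type} [Field F] [Finite F] [Field K] [Field M]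
    [Algebra (RatFunc F) K] [Algebra.IsAlgebraic (RatFunc F) K] [Algebra K M]
    [Algebra.IsAlgebraic K M] (hM : LC ℓ M) :
    Tsen (fun d => d * ℓ ^ d.factorization ℓ) M := by
  classical
  let φ : RatFunc F →+* M := (algebraMap K M).comp (algebraMap (RatFunc F) K)
  let a1 : Algebra (RatFunc F) M := φ.toAlgebra
  have t1 : IsScalarTower (RatFunc F) K M := IsScalarTower.of_algebraMap_eq fun _ => rfl
  have hRM : Algebra.IsAlgebraic (RatFunc F) M := Algebra.IsAlgebraic.trans (RatFunc F) K M
  let a2 : Algebra F M := (φ.comp (algebraMap F (RatFunc F))).toAlgebra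
  have t2 : IsScalarTower F (RatFunc F) M := IsScalarTower.of_algebraMap_eq fun _ => rfl
  let N := algebraicClosure F M
  have hN : LC ℓ N := by
    refine lc_sub (M := M) (fun z hz => ?_) hM
    have h1 : z ∈ algebraicClosure F M := by
      rw [mem_algebraicClosure_iff']
      have h2 : IsAlgebraic F z := by
        have : Algebra.IsAlgebraic F N := inferInstance
        exact IsAlgebraic.restrictScalars F hz
      exact h2.isIntegral
    exact ⟨⟨z, h1⟩, rfl⟩
  have hTN := tsen_zero hℓ F N hN
  let t : M := φ (algebraMap F[X] (RatFunc F) X)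
  have htF : Transcendental F t := by
    have h1 : Transcendental F (algebraMap F[X] (RatFunc F) (X : F[X])) := by
      rw [transcendental_iff_injective]
      intro P Q hPQ
      have h2 : ∀ R : F[X], aeval (algebraMap F[X] (RatFunc F) X) R = algebraMap F[X] (RatFunc F) R := by
        intro R
        rw [aeval_algebraMap_apply, aeval_X_left_apply]
      rw [h2, h2] at hPQ
      exact IsFractionRing.injective F[X] (RatFunc F) hPQ
    have h3 := (transcendental_algebraMap_iff (R := F) (S := RatFunc F) (A := M)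
      (algebraMap (RatFunc F) M).injective (a := algebraMap F[X] (RatFunc F) (X : F[X]))).2 h1
    exact h3
  have htN : Transcendental N t := by
    intro h
    exact htF (IsAlgebraic.restrictScalars F h)
  refine tsen_step htN (fun z => ?_) hTN
  -- `z` is algebraic over the image of `F(t)`
  obtain ⟨P, hP0, hP⟩ := Algebra.IsAlgebraic.isAlgebraic (R := RatFunc F) z
  have hmem : ∀ r : RatFunc F, φ r ∈ IntermediateField.adjoin N {t} := by
    have h1 : ∀ R : F[X], φ (algebraMap F[X] (RatFunc F) R) ∈ IntermediateField.adjoin N {t} := by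
      intro R
      have h2 : φ (algebraMap F[X] (RatFunc F) R) = aeval t R := by
        have h3 : algebraMap F[X] (RatFunc F) R
            = aeval (algebraMap F[X] (RatFunc F) (X : F[X])) R := by
          rw [aeval_algebraMap_apply, aeval_X_left_apply]
        rw [h3]
        show algebraMap (RatFunc F) M _ = _
        rw [← aeval_algebraMap_apply]
        rfl
      rw [h2, aeval_eq_sum_range]
      refine sum_mem fun i _ => ?_
      rw [Algebra.smul_def]
      refine mul_mem ?_ (pow_mem (IntermediateField.mem_adjoin_simple_self N t) i)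
      have h4 : algebraMap F M (R.coeff i) = algebraMap N M (algebraMap F N (R.coeff i)) := rfl
      rw [h4]
      exact (IntermediateField.adjoin N {t}).algebraMap_mem _
    intro r
    obtain ⟨A, B, hB, rfl⟩ := IsFractionRing.div_surjective (A := F[X]) r
    rw [map_div₀]
    exact div_mem (h1 A) (h1 B)
  let ψ : RatFunc F →+* IntermediateField.adjoin N {t} :=
    φ.codRestrict (IntermediateField.adjoin N {t}).toSubfield.toSubring hmem
  refine ⟨P.map ψ, ?_, ?_⟩
  · rwa [Ne, Polynomial.map_eq_zero]
  · rw [aeval_def, eval₂_map]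
    exact hP

theorem wh_map {ι A B : Type} [CommRing A] [CommRing B] (g : A →+* B) {w : ι → ℕ} {e : ℕ}
    {f : MvPolynomial ι A} (hf : MvPolynomial.IsWeightedHomogeneous w f e) :
    MvPolynomial.IsWeightedHomogeneous w (MvPolynomial.map g f) e := by
  intro d hd
  apply hf
  intro h
  apply hd
  rw [MvPolynomial.coeff_map, h, map_zero]

/-- **The theorem of Tsen and Lang at the prime `ℓ`** for global function fields. -/
theorem glob {ℓ : ℕ} (hℓ : ℓ.Prime) {F K : Type} [Field F] [Finite F] [Field K]
    [Algebra (RatFunc F) K] [Algebra.IsAlgebraic (RatFunc F) K]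
    {ι κ : Type} [Fintype ι] [Fintype κ] (w : ι → ℕ) (e : κ → ℕ) (f : κ → MvPolynomial ι K)
    (hw : ∀ i, 0 < w i) (he : ∀ j, 0 < e j)
    (hf : ∀ j, MvPolynomial.IsWeightedHomogeneous w (f j) (e j))
    (hlt : ∑ j, e j * ℓ ^ (e j).factorization ℓ < ∑ i, w i * ℓ ^ (w i).factorization ℓ) :
    ∃ L : IntermediateField K (AlgebraicClosure K), FiniteDimensional K L ∧
      ¬ ℓ ∣ finrank K L ∧ ∃ x : ι → L, x ≠ 0 ∧ ∀ j, MvPolynomial.aeval x (f j) = 0 := by
  classical
  obtain ⟨M, hM1, hM2⟩ := exists_closure K hℓ
  obtain ⟨x, hx, hxf⟩ := tsen_one (F := F) (K := K) (M := M) hℓ hM2 ι κ w e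
    (fun j => MvPolynomial.map (algebraMap K M) (f j)) hw he
    (fun j => wh_map (algebraMap K M) (hf j)) hlt
  let S : Set (AlgebraicClosure K) := Set.range fun i => (x i : AlgebraicClosure K)
  have hS : S.Finite := Set.finite_range _
  have hSM : S ⊆ M := by
    rintro _ ⟨i, rfl⟩
    exact (x i).2
  obtain ⟨L, hLM, hfin, hSL⟩ := Pool.Agent.R614.PT.exists_finite_le S hS hSM
  refine ⟨L, hfin, hM1 L hLM hfin, fun i => ⟨x i, hSL ⟨i, rfl⟩⟩, ?_, fun j => ?_⟩
  · intro h0
    apply hx
    funext i
    apply Subtype.ext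
    exact congr_arg (fun z : L => (z : AlgebraicClosure K)) (congr_fun h0 i)
  · have h1 := hxf j
    rw [MvPolynomial.eval_map, ← MvPolynomial.aeval_def] at h1
    apply Subtype.ext
    have h2 : ((MvPolynomial.aeval x (f j) : M) : AlgebraicClosure K) = 0 := by
      rw [h1]; rfl
    have h3 : ((MvPolynomial.aeval x (f j) : M) : AlgebraicClosure K)
        = MvPolynomial.aeval (fun i => (x i : AlgebraicClosure K)) (f j) :=
      (MvPolynomial.aeval_algebraMap_apply (AlgebraicClosure K) x (f j)).symm
    have h4 : ((MvPolynomial.aeval (fun i => (⟨x i, hSL ⟨i, rfl⟩⟩ : L)) (f j) : L) :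
        AlgebraicClosure K) = MvPolynomial.aeval (fun i => (x i : AlgebraicClosure K)) (f j) :=
      (MvPolynomial.aeval_algebraMap_apply (AlgebraicClosure K)
        (fun i => (⟨x i, hSL ⟨i, rfl⟩⟩ : L)) (f j)).symm
    rw [h4, ← h3, h2]
    rfl

end Pool.Agent.Run7.h652.LP
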