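import Mathlib
import Pool.Agent.Run7.h652.LP.Glob

/-!
The theorem of Tsen and Lang at a prime number `ℓ` for the equations `f_j(x_1^{a_1}, …, x_n^{a_n}) = 0`,
and zero-cycles of degree one.
-/

set_option autoImplicit false

namespace Pool.Agent.Run7.h652.LP

open Module Polynomial
open Pool.Agent.Q49.TL (Tsen)
open Pool.Agent.R614.PT (PrimeTo)

theorem wh_bind {ι A : Type} [CommRing A] {w w' : ι → ℕ} {b : ι → ℕ} {D e : ℕ}
    (hw : ∀ i, b i * w' i = D * w i) {f : MvPolynomial ι A}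
    (hf : MvPolynomial.IsWeightedHomogeneous w f e) :
    MvPolynomial.IsWeightedHomogeneous w'
      (MvPolynomial.bind₁ (fun i => MvPolynomial.X i ^ b i) f) (D * e) := by
  classical
  rw [f.as_sum, map_sum]
  refine MvPolynomial.IsWeightedHomogeneous.sum _ _ _ fun s hs => ?_
  have h1 : Finsupp.weight w s = e := hf (MvPolynomial.mem_support_iff.1 hs)
  rw [MvPolynomial.bind₁_monomial]
  have h2 : MvPolynomial.IsWeightedHomogeneous w'
      (MvPolynomial.C (MvPolynomial.coeff s f) : MvPolynomial ι A) 0 :=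
    MvPolynomial.isWeightedHomogeneous_C w' _
  have h3 : MvPolynomial.IsWeightedHomogeneous w'
      (∏ i ∈ s.support, (MvPolynomial.X i ^ b i : MvPolynomial ι A) ^ s i)
      (∑ i ∈ s.support, s i • (b i • w' i)) :=
    MvPolynomial.IsWeightedHomogeneous.prod s.support
      (fun i => (MvPolynomial.X i ^ b i : MvPolynomial ι A) ^ s i) (fun i => s i • (b i • w' i))
      fun i _ => ((MvPolynomial.isWeightedHomogeneous_X A w' i).pow (b i)).pow (s i)
  have h4 := h2.mul h3
  have h5 : (0 : ℕ) + ∑ i ∈ s.support, s i • (b i • w' i) = D * e := by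
    rw [zero_add, ← h1, Finsupp.weight_apply, Finsupp.sum, Finset.mul_sum]
    refine Finset.sum_congr rfl fun i _ => ?_
    simp only [smul_eq_mul]
    rw [hw i]
    ring
  rwa [h5] at h4


/-- `(ℓ ^ m * c)_ℓ = ℓ ^ m * (c)_ℓ` -/
theorem fac_mul {ℓ : ℕ} (hℓ : ℓ.Prime) (m : ℕ) {c : ℕ} (hc : 0 < c) :
    ℓ ^ (ℓ ^ m * c).factorization ℓ = ℓ ^ m * ℓ ^ c.factorization ℓ := by
  rw [Nat.factorization_mul (pow_ne_zero m hℓ.ne_zero) hc.ne', Finsupp.add_apply,
    hℓ.factorization_pow, Finsupp.single_eq_same, pow_add]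

/-- **The theorem of Tsen and Lang at the prime `ℓ`** for global function fields and the equations
`f_j(x_1^{a_1}, …, x_n^{a_n}) = 0`. -/
theorem glob_exp {ℓ : ℕ} (hℓ : ℓ.Prime) {F K : Type} [Field F] [Finite F] [Field K]
    [Algebra (RatFunc F) K] [Algebra.IsAlgebraic (RatFunc F) K]
    {ι κ : Type} [Fintype ι] [Fintype κ] (w : ι → ℕ) (e : κ → ℕ) (a : ι → ℕ)
    (f : κ → MvPolynomial ι K)
    (hw : ∀ i, 0 < w i) (he : ∀ j, 0 < e j) (ha : ∀ i, 0 < a i)
    (hf : ∀ j, MvPolynomial.IsWeightedHomogeneous w (f j) (e j))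
    (hlt : ∑ j, (e j : ℚ) * ℓ ^ (e j).factorization ℓ
      < ∑ i, (w i : ℚ) * ℓ ^ (w i).factorization ℓ / (ℓ ^ (a i).factorization ℓ) ^ 2) :
    ∃ L : IntermediateField K (AlgebraicClosure K), FiniteDimensional K L ∧
      ¬ ℓ ∣ finrank K L ∧
      ∃ x : ι → L, x ≠ 0 ∧ ∀ j, MvPolynomial.aeval (fun i => x i ^ a i) (f j) = 0 := by
  classical
  obtain ⟨M, hM1, hM2⟩ := exists_closure K hℓ
  let s : ℕ := ∑ i, (a i).factorization ℓ
  have hs : ∀ i, (a i).factorization ℓ ≤ s := fun i =>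
    Finset.single_le_sum (f := fun i => (a i).factorization ℓ) (fun _ _ => Nat.zero_le _)
      (Finset.mem_univ i)
  have hℓ0 : (0 : ℚ) < ℓ := by exact_mod_cast hℓ.pos
  obtain ⟨y, hy, hyf⟩ := tsen_one (F := F) (K := K) (M := M) hℓ hM2 ι κ
    (fun i => ℓ ^ (s - (a i).factorization ℓ) * w i) (fun j => ℓ ^ s * e j)
    (fun j => MvPolynomial.map (algebraMap K M)
      (MvPolynomial.bind₁ (fun i => MvPolynomial.X i ^ ℓ ^ (a i).factorization ℓ) (f j)))
    (fun i => Nat.mul_pos (pow_pos hℓ.pos _) (hw i)) (fun j => Nat.mul_pos (pow_pos hℓ.pos _) (he j))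
    (fun j => wh_map (algebraMap K M) (wh_bind (w := w) (fun i => by
      rw [← mul_assoc, ← pow_add, Nat.add_sub_cancel' (hs i)]) (hf j))) (by
      have h1 : ∑ j, (ℓ ^ s * e j) * ℓ ^ (ℓ ^ s * e j).factorization ℓ
          = (ℓ ^ s) ^ 2 * ∑ j, e j * ℓ ^ (e j).factorization ℓ := by
        rw [Finset.mul_sum]
        refine Finset.sum_congr rfl fun j _ => ?_
        rw [fac_mul hℓ s (he j)]
        ring
      have h2 : ((∑ i, (ℓ ^ (s - (a i).factorization ℓ) * w i) *
          ℓ ^ (ℓ ^ (s - (a i).factorization ℓ) * w i).factorization ℓ : ℕ) : ℚ)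
          = (ℓ ^ s) ^ 2 * ∑ i, (w i : ℚ) * ℓ ^ (w i).factorization ℓ /
            (ℓ ^ (a i).factorization ℓ) ^ 2 := by
        rw [Finset.mul_sum]
        push_cast
        refine Finset.sum_congr rfl fun i _ => ?_
        have h3 : ((ℓ : ℚ) ^ (ℓ ^ (s - (a i).factorization ℓ) * w i).factorization ℓ)
            = ℓ ^ (s - (a i).factorization ℓ) * ℓ ^ (w i).factorization ℓ := by
          exact_mod_cast fac_mul hℓ _ (hw i)
        rw [h3]
        have h4 : (ℓ : ℚ) ^ s = ℓ ^ (s - (a i).factorization ℓ) * ℓ ^ (a i).factorization ℓ := by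
          rw [← pow_add, Nat.sub_add_cancel (hs i)]
        have h5 : (ℓ : ℚ) ^ (a i).factorization ℓ ≠ 0 := pow_ne_zero _ hℓ0.ne'
        rw [h4]
        field_simp
      have h3 : ((∑ j, (ℓ ^ s * e j) * ℓ ^ (ℓ ^ s * e j).factorization ℓ : ℕ) : ℚ)
          < ((∑ i, (ℓ ^ (s - (a i).factorization ℓ) * w i) *
          ℓ ^ (ℓ ^ (s - (a i).factorization ℓ) * w i).factorization ℓ : ℕ) : ℚ) := by
        rw [h2, h1]
        push_cast
        exact mul_lt_mul_of_pos_left hlt (pow_pos (pow_pos hℓ0 _) _)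
      exact_mod_cast h3)
  have ha0 : ∀ i, a i ≠ 0 := fun i => (ha i).ne'
  have hroot : ∀ i, ∃ x : M, x ^ (a i / ℓ ^ (a i).factorization ℓ) = y i := by
    intro i
    obtain ⟨x, hx⟩ := lc_root hM2
      (Polynomial.X ^ (a i / ℓ ^ (a i).factorization ℓ) - Polynomial.C (y i)) (by
        rw [Polynomial.natDegree_X_pow_sub_C]
        exact Nat.not_dvd_ordCompl hℓ (ha0 i))
    refine ⟨x, ?_⟩
    rw [Polynomial.IsRoot.def, Polynomial.eval_sub, Polynomial.eval_pow, Polynomial.eval_X,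
      Polynomial.eval_C, sub_eq_zero] at hx
    exact hx
  choose x hx using hroot
  have hx2 : ∀ i, x i ^ a i = y i ^ ℓ ^ (a i).factorization ℓ := by
    intro i
    rw [← hx i, ← pow_mul, mul_comm, Nat.ordProj_mul_ordCompl_eq_self]
  let S : Set (AlgebraicClosure K) := Set.range fun i => (x i : AlgebraicClosure K)
  have hS : S.Finite := Set.finite_range _
  have hSM : S ⊆ M := by
    rintro _ ⟨i, rfl⟩
    exact (x i).2
  obtain ⟨L, hLM, hfin, hSL⟩ := Pool.Agent.R614.PT.exists_finite_le S hS hSM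
  refine ⟨L, hfin, hM1 L hLM hfin, fun i => ⟨x i, hSL ⟨i, rfl⟩⟩, ?_, fun j => ?_⟩
  · intro h0
    apply hy
    funext i
    have h1 : x i = 0 := by
      apply Subtype.ext
      exact congr_arg (fun z : L => (z : AlgebraicClosure K)) (congr_fun h0 i)
    have h2 := hx2 i
    rw [h1, zero_pow (ha0 i)] at h2
    exact pow_eq_zero_iff (pow_ne_zero _ hℓ.ne_zero) |>.1 h2.symm
  · have h1 := hyf j
    rw [MvPolynomial.eval_map, ← MvPolynomial.aeval_def, MvPolynomial.aeval_bind₁] at h1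
    simp only [map_pow, MvPolynomial.aeval_X] at h1
    have h6 : (fun i => y i ^ ℓ ^ (a i).factorization ℓ) = fun i => x i ^ a i := by
      funext i
      exact (hx2 i).symm
    rw [h6] at h1
    apply Subtype.ext
    have h2 : ((MvPolynomial.aeval (fun i => x i ^ a i) (f j) : M) : AlgebraicClosure K) = 0 := by
      rw [h1]; rfl
    have h3 : ((MvPolynomial.aeval (fun i => x i ^ a i) (f j) : M) : AlgebraicClosure K)
        = MvPolynomial.aeval (fun i => (x i : AlgebraicClosure K) ^ a i) (f j) :=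
      (MvPolynomial.aeval_algebraMap_apply (AlgebraicClosure K) (fun i => x i ^ a i) (f j)).symm
    have h4 : ((MvPolynomial.aeval (fun i => (⟨x i, hSL ⟨i, rfl⟩⟩ : L) ^ a i) (f j) : L) :
        AlgebraicClosure K) = MvPolynomial.aeval (fun i => (x i : AlgebraicClosure K) ^ a i)
          (f j) :=
      (MvPolynomial.aeval_algebraMap_apply (AlgebraicClosure K)
        (fun i => (⟨x i, hSL ⟨i, rfl⟩⟩ : L) ^ a i) (f j)).symm
    rw [h4, ← h3, h2]
    rfl

/-- There is a zero-cycle on the extensions with the property `P` whose degree `N` is not divisible by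
any prime number `ℓ` for which there is an extension of degree prime to `ℓ` with the property `P`. -/
theorem index_cycle {K Ω : Type} [Field K] [Field Ω] [Algebra K Ω]
    (P : IntermediateField K Ω → Prop) :
    ∃ (z : IntermediateField K Ω →₀ ℤ) (N : ℕ), (∀ L ∈ z.support, FiniteDimensional K L ∧ P L) ∧
      z.sum (fun L m => m * (finrank K L : ℤ)) = N ∧
      ∀ ℓ : ℕ, (∃ L : IntermediateField K Ω, FiniteDimensional K L ∧
        ¬ ℓ ∣ finrank K L ∧ P L) → ¬ ℓ ∣ N := by
  classical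
  let I : Ideal ℤ := Ideal.span {N : ℤ | ∃ L : IntermediateField K Ω, FiniteDimensional K L ∧ P L ∧
    N = (finrank K L : ℤ)}
  have hI : ((Submodule.IsPrincipal.generator I).natAbs : ℤ) ∈ I := by
    rw [Submodule.IsPrincipal.mem_iff_generator_dvd I]
    exact Int.dvd_natAbs.2 dvd_rfl
  obtain ⟨z, hz1, hz2⟩ := Submodule.span_induction (p := fun N _ =>
    ∃ z : IntermediateField K Ω →₀ ℤ, (∀ L ∈ z.support, FiniteDimensional K L ∧ P L) ∧
      z.sum (fun L m => m * (finrank K L : ℤ)) = N) (by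
    rintro N ⟨L, hL1, hL2, rfl⟩
    refine ⟨Finsupp.single L 1, fun L' hL' => ?_, ?_⟩
    · have h1 := Finsupp.support_single_subset hL'
      rw [Finset.mem_singleton] at h1
      subst h1
      exact ⟨hL1, hL2⟩
    · rw [Finsupp.sum_single_index (by simp), one_mul]) ⟨0, by simp, by simp⟩ (by
    rintro N N' _ _ ⟨z, hz, rfl⟩ ⟨z', hz', rfl⟩
    refine ⟨z + z', fun L hL => ?_, ?_⟩
    · have h1 := Finsupp.support_add hL
      rw [Finset.mem_union] at h1
      rcases h1 with h1 | h1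
      · exact hz L h1
      · exact hz' L h1
    · rw [Finsupp.sum_add_index' (by simp) (fun L a b => by ring)]) (by
    rintro c N _ ⟨z, hz, rfl⟩
    refine ⟨c • z, fun L hL => hz L (Finsupp.support_smul hL), ?_⟩
    rw [Finsupp.sum_smul_index (by simp), smul_eq_mul, Finsupp.mul_sum]
    refine Finsupp.sum_congr fun L _ => ?_
    ring) hI
  refine ⟨z, (Submodule.IsPrincipal.generator I).natAbs, hz1, hz2, ?_⟩
  rintro ℓ ⟨L, hL1, hL2, hL3⟩ hℓ
  have h1 : (finrank K L : ℤ) ∈ I := Ideal.subset_span ⟨L, hL1, hL3, rfl⟩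
  have h2 := (Submodule.IsPrincipal.mem_iff_generator_dvd I).1 h1
  have h3 : (Submodule.IsPrincipal.generator I).natAbs ∣ (finrank K L : ℤ).natAbs :=
    Int.natAbs_dvd_natAbs.2 h2
  rw [Int.natAbs_natCast] at h3
  exact hL2 (hℓ.trans h3)

end Pool.Agent.Run7.h652.LP
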